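import Mathlib
import Pool.Agent.Y224.TS.U3
import Pool.Agent.Y224.OD.Stm2

/-!
# Rank one elements of the second Lie algebra: submodules which are not self-dual
-/

set_option linter.unusedSectionVars false

namespace Pool.Agent.Y91.L

open Matrix Module Pool.Agent.W437.HC Pool.Agent.W437.HD Pool.Agent.W548.Odd Pool.Agent.W522.U
open Pool.Agent.H204R3.SP Pool.Agent.H204R3.GP Pool.Agent.Y90 Pool.Agent.Y224.TS
open Pool.Agent.Y224.OD (S_DUO rkk)
open Pool.Agent.W437.HP (cK cK_mul cK_one)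

noncomputable section

variable {G : ℕ} {Z : Matrix (Fin G) (Fin G) ℂ}
  {S : Set (Matrix (Fin G ⊕ Fin G) (Fin G ⊕ Fin G) ℂ)}

/-- The second Lie algebra contains elements of rank one. -/
def HasRk (S : Set (Matrix (Fin G ⊕ Fin G) (Fin G ⊕ Fin G) ℂ))
    (U : Submodule ℂ (Fin G ⊕ Fin G → ℂ)) : Prop :=
  ∃ D ∈ Y224.TS.LT S, D * D = 1 ∧ ∃ N ∈ Y224.TS.LT S, D * N = N ∧ N * D = -N ∧
    finrank ℂ (U.map (mulVecLin N)) = 1

variable (h : TD Z S) (hZ : PM Z) {U : Submodule ℂ (Fin G ⊕ Fin G → ℂ)}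
include h hZ

/-- The multiplicities of the restrictions. -/
theorem rkk_res (hU : IrS (LZ Z) U) {D : Matrix (Fin G ⊕ Fin G) (Fin G ⊕ Fin G) ℂ} (hD : D ∈ S)
    {σ : ℂ ≃+* ℂ}
    (hσ : ∀ P : Matrix (Fin G ⊕ Fin G) (Fin G ⊕ Fin G) ℂ, (∀ X ∈ LZ Z, P * X = X * P) →
      (P * D).trace = (P * DS Z σ).trace) (hst : ∀ u ∈ U, D *ᵥ u ∈ U) :
    rkk (1 + resM D U hst) = pd Z (cjS σ.symm U) ∧
      rkk (1 - resM D U hst) = qd Z (cjS σ.symm U) := by
  have hU' : IrS (Y224.TS.LT S) U := (h.irS hZ).2 hU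
  obtain ⟨d1, d2⟩ := h.dims hZ hD hσ hU.2.1
  obtain ⟨Dr, hDr⟩ : ∃ Dr, Dr = resM D U hst := ⟨_, rfl⟩
  have hDr2 : Dr * Dr = 1 := by rw [hDr]; exact h.res_sq hU' hD _
  have hDra : ∀ u : U, ((Dr u : U) : Fin G ⊕ Fin G → ℂ) = D *ᵥ (u : Fin G ⊕ Fin G → ℂ) :=
    fun u => by rw [hDr]; rfl
  have key : ∀ ε : ℂ, ε * ε = 1 → (LinearMap.range (1 + ε • Dr)).map U.subtype =
      es (ph (Fin G ⊕ Fin G) D) U ε := by
    intro ε hε
    ext v
    constructor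
    · rintro ⟨_, ⟨u, rfl⟩, rfl⟩
      refine mem_es.2 ⟨((1 + ε • Dr) u).2, ?_⟩
      change D *ᵥ (((1 + ε • Dr) u : U) : Fin G ⊕ Fin G → ℂ) = ε • (((1 + ε • Dr) u : U) : _)
      rw [← hDra, LinearMap.add_apply, Module.End.one_apply, LinearMap.smul_apply, map_add,
        map_smul, ← Module.End.mul_apply, hDr2, Module.End.one_apply, ← Submodule.coe_smul,
        smul_add, smul_smul, hε, one_smul, add_comm]
    · intro hv
      obtain ⟨h1, h2⟩ := mem_es.1 hv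
      have h2' : D *ᵥ v = ε • v := h2
      refine ⟨⟨v, h1⟩, ⟨(1 / 2 : ℂ) • ⟨v, h1⟩, ?_⟩, rfl⟩
      apply Subtype.ext
      rw [LinearMap.add_apply, Module.End.one_apply, LinearMap.smul_apply, map_smul,
        Submodule.coe_add, Submodule.coe_smul, Submodule.coe_smul, Submodule.coe_smul, hDra]
      change (1 / 2 : ℂ) • v + ε • (1 / 2 : ℂ) • (D *ᵥ v) = v
      rw [h2', smul_comm ε, smul_smul ε ε, hε]
      module
  rw [← hDr]
  constructor
  · have e1 : (1 : End ℂ U) + (1 : ℂ) • Dr = 1 + Dr := by module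
    have e2 := key 1 (by norm_num)
    rw [e1] at e2
    rw [← d1, ← e2, Submodule.finrank_map_subtype_eq]
    rfl
  · have e1 : (1 : End ℂ U) + (-1 : ℂ) • Dr = 1 - Dr := by module
    have e2 := key (-1) (by norm_num)
    rw [e1] at e2
    rw [← d2, ← e2, Submodule.finrank_map_subtype_eq]
    rfl

/-- **Rank one elements of the second Lie algebra.** -/
theorem rk_gcd (hduo : S_DUO) (hU : IrS (LZ Z) U) (hns : ¬SDu Z U) (τ : ℂ ≃+* ℂ)
    (hp : 0 < pd Z (cjS τ U)) (hq : 0 < qd Z (cjS τ U))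
    (hgcd : ∀ σ : ℂ ≃+* ℂ, 0 < pd Z (cjS σ U) → 0 < qd Z (cjS σ U) →
      ¬(pd Z (cjS τ U) + qd Z (cjS τ U) ∣ (pd Z (cjS τ U)).gcd (qd Z (cjS τ U)) *
        (pd Z (cjS σ U)).gcd (qd Z (cjS σ U))))
    (hcase : (pd Z (cjS τ U) ≠ qd Z (cjS τ U) ∧ ∀ n a : ℕ, 1 < a → a < n →
        ¬(pd Z (cjS τ U) = n.choose a ∧ qd Z (cjS τ U) = n.choose (a - 1))) ∨
      (pd Z (cjS τ U) = qd Z (cjS τ U) ∧ (∀ m : ℕ, 1 ≤ m → pd Z (cjS τ U) ≠ 2 ^ m) ∧
        ∀ σ : ℂ ≃+* ℂ, pd Z (cjS σ U) = qd Z (cjS σ U))) : HasRk S U := by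
  have hU' : IrS (Y224.TS.LT S) U := (h.irS hZ).2 hU
  obtain ⟨D, hD, hσ⟩ := h.ex τ.symm
  have hst : ∀ D ∈ S, ∀ u ∈ U, D *ᵥ u ∈ U := fun D hD u hu => hU'.2.1 D (LT_gen hD) u hu
  have hbrM : ∀ X ∈ Y224.TS.LT S, ∀ Y ∈ Y224.TS.LT S, X * Y - Y * X ∈ Y224.TS.LT S := fun X hX Y hY => LT_br hX hY
  have hDm : D ∈ Y224.TS.LT S := LT_gen hD
  have hD2 := h.sq D hD
  obtain ⟨k1, k2⟩ := rkk_res h hZ hU hD hσ (hst D hD)
  rw [RingEquiv.symm_symm] at k1 k2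
  obtain ⟨Dr, hDr⟩ : ∃ Dr, Dr = resM D U (hst D hD) := ⟨_, rfl⟩
  have hDra : ∀ u : U, ((Dr u : U) : Fin G ⊕ Fin G → ℂ) = D *ᵥ (u : Fin G ⊕ Fin G → ℂ) :=
    fun u => by rw [hDr]; rfl
  rw [← hDr] at k1 k2
  obtain ⟨N, ⟨X, hX, hNX⟩, h1, h2, h3⟩ := hduo ℂ U (resL (Y224.TS.LT S) U)
    {E | ∃ (D' : Matrix (Fin G ⊕ Fin G) (Fin G ⊕ Fin G) ℂ) (hD' : D' ∈ S),
      E = resM D' U (hst D' hD')} Dr
    (pd Z (cjS τ U)) (qd Z (cjS τ U)) (resL_br hbrM U) (by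
      rintro _ ⟨D', hD', rfl⟩
      exact ⟨⟨D', LT_gen hD', fun u => rfl⟩, h.res_sq hU' hD' _⟩) (by
      intro L' hL' hbr'
      let C : Submodule ℂ (Matrix (Fin G ⊕ Fin G) (Fin G ⊕ Fin G) ℂ) :=
        { carrier := {X | ∃ y ∈ L', ∀ u : U, ((y u : U) : Fin G ⊕ Fin G → ℂ) = X *ᵥ (u : _ → ℂ)}
          add_mem' := by
            rintro X Y ⟨x, hx, hx'⟩ ⟨y, hy, hy'⟩
            refine ⟨x + y, L'.add_mem hx hy, fun u => ?_⟩
            rw [LinearMap.add_apply, Submodule.coe_add, hx', hy', add_mulVec]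
          zero_mem' := ⟨0, L'.zero_mem, fun u => by
            rw [LinearMap.zero_apply, Submodule.coe_zero, zero_mulVec]⟩
          smul_mem' := by
            rintro c X ⟨x, hx, hx'⟩
            refine ⟨c • x, L'.smul_mem c hx, fun u => ?_⟩
            rw [LinearMap.smul_apply, Submodule.coe_smul, hx', smul_mulVec] }
      have hC : Y224.TS.LT S ≤ C := by
        refine LT_le (fun D' hD' => ⟨resM D' U (hst D' hD'), hL' ⟨D', hD', rfl⟩, fun u => rfl⟩) ?_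
        rintro X ⟨x, hx, hx'⟩ Y ⟨y, hy, hy'⟩
        refine ⟨x * y - y * x, hbr' x hx y hy, fun u => ?_⟩
        rw [LinearMap.sub_apply, Submodule.coe_sub, Module.End.mul_apply, Module.End.mul_apply,
          hx', hy', hy', hx', sub_mulVec, mulVec_mulVec, mulVec_mulVec]
      rintro y ⟨X, hX, hyX⟩
      obtain ⟨x, hx, hx'⟩ := hC hX
      have e1 : y = x := LinearMap.ext fun u => Subtype.ext (by rw [hyX, hx'])
      rw [e1]
      exact hx) (h.res_irr' hU') (by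
      intro B hB
      by_contra hB0
      apply hns
      obtain ⟨π, hπ⟩ := LinearMap.exists_leftInverse_of_injective U.subtype
        (LinearMap.ker_eq_bot.2 U.subtype_injective)
      have hπu : ∀ u : U, π (u : Fin G ⊕ Fin G → ℂ) = u := fun u => LinearMap.congr_fun hπ u
      obtain ⟨u, hu⟩ : ∃ u, B u ≠ 0 := by
        by_contra hcon
        push Not at hcon
        exact hB0 (LinearMap.ext hcon)
      obtain ⟨v, hv⟩ : ∃ v, B u v ≠ 0 := by
        by_contra hcon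
        push Not at hcon
        exact hu (LinearMap.ext hcon)
      refine ⟨B.compl₁₂ π π, ⟨u, u.2, v, v.2, ?_⟩, ?_⟩
      · rw [LinearMap.compl₁₂_apply, hπu, hπu]
        exact hv
      · refine (h.bil_on hZ hU.2.1 hU.2.1 _).1 ?_
        intro X hX u hu v hv
        have e1 := hB (resM X U (fun w hw => hU'.2.1 X hX w hw)) ⟨X, hX, fun w => rfl⟩ ⟨u, hu⟩
          ⟨v, hv⟩
        have e2 : ∀ w (hw : w ∈ U), π (X *ᵥ w) =
            resM X U (fun w hw => hU'.2.1 X hX w hw) ⟨w, hw⟩ := by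
          intro w hw
          have e3 := hπu (resM X U (fun w hw => hU'.2.1 X hX w hw) ⟨w, hw⟩)
          rw [resM_coe] at e3
          exact e3
        rw [LinearMap.compl₁₂_apply, LinearMap.compl₁₂_apply, e2 u hu, e2 v hv, hπu ⟨u, hu⟩,
          hπu ⟨v, hv⟩]
        exact e1) ⟨D, hD, hDr⟩ k1 k2 hp hq (by
      rintro _ ⟨D', hD', rfl⟩
      obtain ⟨σ, hσ'⟩ := h.tr D' hD'
      obtain ⟨d1, d2⟩ := rkk_res h hZ hU hD' hσ' (hst D' hD')
      rw [d1, d2]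
      exact hgcd σ.symm) (by
      rcases hcase with h1 | ⟨h1, h2, h3⟩
      · exact Or.inl h1
      · refine Or.inr ⟨h1, h2, ?_⟩
        rintro _ ⟨D', hD', rfl⟩
        obtain ⟨σ, hσ'⟩ := h.tr D' hD'
        obtain ⟨d1, d2⟩ := rkk_res h hZ hU hD' hσ' (hst D' hD')
        rw [d1, d2]
        exact h3 σ.symm)
  refine ⟨D, hDm, hD2, _, gup_mem hbrM hDm hD2 hX, gup_l hD2 X, gup_r hD2 X, ?_⟩
  rw [finrank_map_res (Y := N) (fun u => ?_)]
  · exact h3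
  have h4 : N = (1 / 4 : ℂ) • ((1 + Dr) * N * (1 - Dr)) := by
    have h5 : (1 + Dr) * N * (1 - Dr) = (4 : ℂ) • N := by
      rw [add_mul, one_mul, h1, mul_sub (N + N), mul_one, add_mul, h2]
      module
    rw [h5, smul_smul]
    norm_num
  nth_rewrite 1 [h4]
  rw [smul_mulVec, ← mulVec_mulVec, ← mulVec_mulVec]
  simp only [LinearMap.smul_apply, Module.End.mul_apply, LinearMap.add_apply,
    LinearMap.sub_apply, Module.End.one_apply, Submodule.coe_smul, Submodule.coe_add,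
    Submodule.coe_sub, hDra, hNX, add_mulVec, sub_mulVec, one_mulVec]

end

end Pool.Agent.Y91.L
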