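import Mathlib
import Pool.Agent.Y91.L.Gcd
import Pool.Agent.Y224.TS.U4
import Pool.Agent.Y4.P.Gcd4

/-!
# The simple factors: the types for which the second Lie algebra has elements of rank one
-/

set_option linter.unusedSectionVars false

namespace Pool.Agent.Y91.L

open Matrix Module Pool.Agent.W437.HC Pool.Agent.W437.HD Pool.Agent.W548.Odd Pool.Agent.W522.U
open Pool.Agent.H204R3.SP Pool.Agent.H204R3.GP Pool.Agent.Y90 Pool.Agent.Y224.TS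
open Pool.Agent.Y224.OD (S_DUO rkk)
open Pool.Agent.W437.HP (cK cK_mul cK_one)
open Pool.Agent.Y4.P (MaxM EigM RealOddM TwoTwoM PD)
open PQ (CMM CopM4 NS ME MF SepF SepP ClassT locT sepP_of classT_of class_copT)
open Pool.Agent.Y4.Q (GcdM)

noncomputable section

/-- The numerical condition for submodules which are not self-dual. -/
def GcC {g : ℕ} (Z : Matrix (Fin g) (Fin g) ℂ) (U : Submodule ℂ (Fin g ⊕ Fin g → ℂ)) : Prop :=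
  ¬SDu Z U ∧ ∃ τ : ℂ ≃+* ℂ, 0 < pd Z (cjS τ U) ∧ 0 < qd Z (cjS τ U) ∧
    (∀ σ : ℂ ≃+* ℂ, 0 < pd Z (cjS σ U) → 0 < qd Z (cjS σ U) →
      ¬(pd Z (cjS τ U) + qd Z (cjS τ U) ∣ (pd Z (cjS τ U)).gcd (qd Z (cjS τ U)) *
        (pd Z (cjS σ U)).gcd (qd Z (cjS σ U)))) ∧
    ((pd Z (cjS τ U) ≠ qd Z (cjS τ U) ∧ ∀ n a : ℕ, 1 < a → a < n →
        ¬(pd Z (cjS τ U) = n.choose a ∧ qd Z (cjS τ U) = n.choose (a - 1))) ∨
      (pd Z (cjS τ U) = qd Z (cjS τ U) ∧ (∀ m : ℕ, 1 ≤ m → pd Z (cjS τ U) ≠ 2 ^ m) ∧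
        ∀ σ : ℂ ≃+* ℂ, pd Z (cjS σ U) = qd Z (cjS σ U)))

section fac

variable {G a : ℕ} {Z : Matrix (Fin G) (Fin G) ℂ} {Z' : Matrix (Fin a) (Fin a) ℂ}
  {E : Matrix (Fin G ⊕ Fin G) (Fin a ⊕ Fin a) ℚ} {F : Matrix (Fin a ⊕ Fin a) (Fin G ⊕ Fin G) ℚ}
  {U : Submodule ℂ (Fin G ⊕ Fin G → ℂ)}

theorem gcC_fac (hf : Fac Z Z' E F) (hU : IrS (LZ Z) U)
    (hi : ∀ u ∈ U, ml F u = 0 → u = 0) (hc : GcC Z' (U.map (ml F))) : GcC Z U := by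
  have hpq := fun σ => PQ.pd_fac_cj (Z := Z) hf hi hU.2.1 σ
  obtain ⟨h0, τ, h1, h2, h3, h4⟩ := hc
  refine ⟨fun hd => h0 (sdu_fac hf hU.2.1 hi hd), τ, ?_⟩
  simp only [(hpq _).1, (hpq _).2] at h1 h2 h3 h4
  exact ⟨h1, h2, h3, h4⟩

end fac

section simple

variable {g : ℕ} {Z : Matrix (Fin g) (Fin g) ℂ} {U : Submodule ℂ (Fin g ⊕ Fin g → ℂ)}

/-- Self-duality is preserved by equivariant isomorphisms. -/
theorem sdu_map (hU : IrS (LZ Z) U) {T : (Fin g ⊕ Fin g → ℂ) →ₗ[ℂ] (Fin g ⊕ Fin g → ℂ)}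
    (hT : ∀ X ∈ LZ Z, ∀ v, T (X *ᵥ v) = X *ᵥ T v) (hi : ∀ u ∈ U, T u = 0 → u = 0)
    (hsd : SDu Z U) : SDu Z (U.map T) := by
  obtain ⟨b, ⟨u, hu, v, hv, huv⟩, hb⟩ := hsd
  let e : U ≃ₗ[ℂ] (U.map T) := LinearEquiv.ofBijective
    (T.restrict (p := U) (q := U.map T) fun x hx => ⟨x, hx, rfl⟩) (by
      constructor
      · rw [injective_iff_map_eq_zero]
        intro x hx
        exact Subtype.ext (hi x x.2 (congrArg Subtype.val hx))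
      · rintro ⟨_, x, hx, rfl⟩
        exact ⟨⟨x, hx⟩, rfl⟩)
  have he : ∀ x (hx : x ∈ U), e ⟨x, hx⟩ = ⟨T x, ⟨x, hx, rfl⟩⟩ := fun x hx => rfl
  obtain ⟨r, hr⟩ := LinearMap.exists_extend (U.subtype ∘ₗ (e.symm : U.map T →ₗ[ℂ] U))
  have hrT : ∀ x ∈ U, r (T x) = x := by
    intro x hx
    have h1 := congrArg (fun f => f (e ⟨x, hx⟩)) hr
    have h2 : (U.subtype ∘ₗ (e.symm : U.map T →ₗ[ℂ] U)) (e ⟨x, hx⟩) = x := by
      rw [LinearMap.comp_apply, LinearEquiv.coe_coe, LinearEquiv.symm_apply_apply]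
      rfl
    exact h1.trans h2
  refine ⟨b.compl₁₂ r r, ⟨T u, ⟨u, hu, rfl⟩, T v, ⟨v, hv, rfl⟩, ?_⟩, ?_⟩
  · rw [LinearMap.compl₁₂_apply, hrT u hu, hrT v hv]
    exact huv
  · rintro X hX _ ⟨x, hx, rfl⟩ _ ⟨y, hy, rfl⟩
    rw [LinearMap.compl₁₂_apply, LinearMap.compl₁₂_apply, ← hT X hX, ← hT X hX, hrT x hx,
      hrT y hy, hrT _ (hU.2.1 X hX x hx), hrT _ (hU.2.1 X hX y hy)]
    exact hb X hX x hx y hy

/-- Multiplicities without a common divisor. -/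
theorem gcC_gcd (h : PM Z) (hs : IsSimpleAV Z) (hg : 0 < g) (hc : GcdM Z)
    (hU : IrS (LZ Z) U) : GcC Z U := by
  obtain ⟨φ, hφ, hcm, w, hw, p, q, hp, hq, hp0, hq0, hgcd, hx⟩ := hc
  obtain ⟨s1, s2, -⟩ := Pool.Agent.Y261.P.jspec g Z h hs hg φ hφ
  obtain ⟨z, hz, T, hT, hi, hm⟩ := s2 U hU
  obtain ⟨τ, hτ⟩ := PQ.exists_aut_root
    (Pool.Agent.Y261.P.minpoly_irr h hs hg hφ.1) hz hw
  have hpd : ∀ σ : ℂ ≃+* ℂ, pd Z (cjS σ U) = pd Z (EigM φ (σ z)) := fun σ => by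
    rw [← PQ.pd_cj_map hT hi hU.2.1, hm, Pool.Agent.Y4.P.cjS_eigM]
  have hqd : ∀ σ : ℂ ≃+* ℂ, qd Z (cjS σ U) = qd Z (EigM φ (σ z)) := fun σ => by
    rw [← PQ.qd_cj_map h hT hi hU.2.1, hm, Pool.Agent.Y4.P.cjS_eigM]
  have hroot : ∀ σ : ℂ ≃+* ℂ, σ z ∈ (minpoly ℚ φ).aroots ℂ := fun σ =>
    Pool.Agent.Y4.P.root_aut hz σ
  refine ⟨?_, τ, ?_⟩
  · intro hsd
    rcases hx with ⟨hpq, -⟩ | ⟨-, -, -, c, k, hc, hcen, hk, hki⟩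
    · -- the traces of the conjugates
      have h1 := tr_st h hU hU ((rz_du h hU.2.1 hU.2.1).2 hsd) τ
      unfold Pool.Agent.Y90.tr at h1
      rw [hpd, hqd, hτ, hp, hq] at h1
      omega
    · have h1 := sdu_map hU hT hi hsd
      rw [hm] at h1
      exact Pool.Agent.Y4.Q.not_sdu_nonreal h hs hφ hc hcen hk hki (s1 z hz).1 h1
  · rw [hpd, hqd, hτ, hp, hq]
    refine ⟨hp0, hq0, fun σ h1 h2 => ?_, ?_⟩
    · rw [hpd] at h1 ⊢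
      rw [hqd] at h2 ⊢
      exact hgcd _ (hroot σ) h1 h2
    · rcases hx with hx | ⟨h1, h2, h3, -⟩
      · exact Or.inl hx
      · refine Or.inr ⟨h1, h2, fun σ => ?_⟩
        rw [hpd, hqd]
        exact h3 _ (hroot σ)

end simple

end

end Pool.Agent.Y91.L
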