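import Mathlib
import Pool.Agent.Y91.L.Cls
import Pool.Agent.Y153.GV.LieMem

/-!
# Tate tensors are killed by the Hodge Lie algebra

Let `S` be a set of symplectic involutions with the same commutant and the same traces as the
conjugates `DS Z σ` of the complex structure (`TD Z S` of `Pool.Agent.Y224.TS`). If the Lie algebra
generated by `S` has elements of rank one on the irreducible submodules and these are not related
by twists, then each form which is killed by `S` is killed by all `DS Z σ`. The lemmas `trace_DS`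
and `prod_det` and the argument are those of `Pool.Agent.Y90.L.Kill` (by helper90).
-/

set_option linter.unusedSectionVars false

namespace Pool.Agent.Y91.L

open Matrix Module Pool.Agent.W437.HC Pool.Agent.W437.HD Pool.Agent.W548.Odd Pool.Agent.W522.U
open Pool.Agent.H204R3.SP Pool.Agent.H204R3.GP Pool.Agent.Y90
open Pool.Agent.Y224.TS
open PQ (SepP)
open Pool.Agent.Y153.GV (NLie clo_NLie sum_det_update inv_of_InvF)
open Pool.Agent.Y90.G (ac ac_apply MV InvF)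

noncomputable section

variable {G : ℕ} {Z : Matrix (Fin G) (Fin G) ℂ}
  {S : Set (Matrix (Fin G ⊕ Fin G) (Fin G ⊕ Fin G) ℂ)}

/-- The trace of a conjugate of the complex structure on a stable subspace. -/
theorem trace_DS (h : PM Z) (σ : ℂ ≃+* ℂ) {U : Submodule ℂ (Fin G ⊕ Fin G → ℂ)}
    (hU : Stab (LZ Z) U) (hU' : ∀ u ∈ U, mulVecLin (DS Z σ) u ∈ U) :
    LinearMap.trace ℂ U ((mulVecLin (DS Z σ)).restrict hU') =
      ((Pool.Agent.Y90.tr Z (cjS σ.symm U) : ℤ) : ℂ) := by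
  obtain ⟨π, h1, h2, h3⟩ := h.cred U hU
  have e2 := trace_proj (phDS_sq h σ) h2 h3 (fun v => h1 _ (DS_mem σ) v)
  obtain ⟨e6, e7⟩ := fr_DS (Z := Z) σ U
  rw [e6, e7] at e2
  have h4 : LinearMap.trace ℂ U ((mulVecLin (DS Z σ)).restrict hU') =
      LinearMap.trace ℂ (Fin G ⊕ Fin G → ℂ) (π * ph (Fin G ⊕ Fin G) (DS Z σ)) := by
    rw [← LinearMap.trace_restrict_eq_of_forall_mem U (π * ph (Fin G ⊕ Fin G) (DS Z σ))
      (fun x => h2 _)]
    congr 1
    refine LinearMap.ext fun u => Subtype.ext ?_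
    exact (h3 _ (hU' u u.2)).symm
  rw [h4, e2]
  unfold Pool.Agent.Y90.tr
  push_cast
  rfl

/-- The derivative of a product of determinants. -/
theorem prod_det (X : (Fin G ⊕ Fin G → ℂ) →ₗ[ℂ] (Fin G ⊕ Fin G → ℂ)) {I : Type} [Fintype I]
    [DecidableEq I] (W : I → Submodule ℂ (Fin G ⊕ Fin G → ℂ)) (hX : ∀ i, ∀ u ∈ W i, X u ∈ W i)
    (htr : ∑ i, LinearMap.trace ℂ (W i) (X.restrict (hX i)) = 0)
    (ι : I → Type) [∀ i, Fintype (ι i)] [∀ i, DecidableEq (ι i)]
    (f : ∀ i, Basis (ι i) ℂ (W i)) (q : ∀ x : I, ι x → (Fin G ⊕ Fin G → ℂ) →ₗ[ℂ] W x)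
    (hq : ∀ x y v, q x y (X v) = X.restrict (hX x) (q x y v))
    (ψ : MultilinearMap ℂ (fun _ : (Σ x : I, ι x) => Fin G ⊕ Fin G → ℂ) ℂ)
    (hψ : ∀ v, ψ v = ∏ x : I, (f x).det (fun y => q x y (v ⟨x, y⟩))) :
    ac X ψ = 0 := by
  refine MultilinearMap.ext fun v => ?_
  rw [ac_apply]
  let P : I → ℂ := fun x => (f x).det (fun y => q x y (v ⟨x, y⟩))
  have h1 : ∀ (x : I) (y : ι x), ψ (Function.update v ⟨x, y⟩ (X (v ⟨x, y⟩))) =
      (f x).det (Function.update (fun y => q x y (v ⟨x, y⟩)) y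
        (X.restrict (hX x) (q x y (v ⟨x, y⟩)))) * ∏ x' ∈ Finset.univ \ {x}, P x' := by
    intro x y
    rw [hψ, ← Finset.prod_update_of_mem (Finset.mem_univ x)]
    refine Finset.prod_congr rfl fun x' _ => ?_
    by_cases hx : x' = x
    · subst hx
      rw [Function.update_self]
      congr 1
      funext y'
      by_cases hy : y' = y
      · subst hy
        rw [Function.update_self, Function.update_self, hq]
      · rw [Function.update_of_ne hy, Function.update_of_ne (fun h0 => hy (by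
          have h1 := Sigma.mk.inj h0
          exact eq_of_heq h1.2))]
    · rw [Function.update_of_ne hx]
      change _ = (f x').det (fun y => q x' y (v ⟨x', y⟩))
      congr 1
      funext y'
      rw [Function.update_of_ne (fun h0 => hx (congrArg Sigma.fst h0))]
  rw [Fintype.sum_sigma]
  have h2 : ∀ x : I, ∑ y, ψ (Function.update v ⟨x, y⟩ (X (v ⟨x, y⟩))) =
      LinearMap.trace ℂ (W x) (X.restrict (hX x)) * ∏ x', P x' := by
    intro x
    rw [Finset.sum_congr rfl fun y _ => h1 x y, ← Finset.sum_mul, sum_det_update, mul_assoc]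
    congr 1
    have h3 := Finset.prod_update_of_mem (Finset.mem_univ x) P (P x)
    rw [Function.update_eq_self] at h3
    exact h3.symm
  rw [Finset.sum_congr rfl fun x _ => h2 x, ← Finset.sum_mul, htr, zero_mul]
  rfl

/-- **Forms invariant under the second Lie algebra** are killed by the conjugates of the complex
structure. -/
theorem inv_kill (h : TD Z S) (hZ : PM Z)
    (hrk : ∀ U : Submodule ℂ (Fin G ⊕ Fin G → ℂ), IrS (LZ Z) U → 2 ≤ finrank ℂ U → HasRk S U)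
    (hsep : ∀ U U' : Submodule ℂ (Fin G ⊕ Fin G → ℂ), IrS (LZ Z) U → IrS (LZ Z) U' →
      2 ≤ finrank ℂ U → SepP Z U U') {n : ℕ}
    (φ : MultilinearMap ℂ (fun _ : Fin n × Fin 2 => Fin G ⊕ Fin G → ℂ) ℂ)
    (hφ : ∀ (g : Gam (GG (LT S))) v, φ (fun k => RG (GG (LT S)) g (v k)) = φ v)
    (σ : ℂ ≃+* ℂ) : φ ∈ NLie (mulVecLin (DS Z σ)) (Fin n × Fin 2) := by
  have hSI : ∀ {U}, W522.U.SI (RG (GG (LT S))) U ↔ IrS (LZ Z) U := fun {U} => h.si hZ
  have hp := gz_proj h.genI h.cr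
  obtain ⟨s, W, hW, hWW, hall⟩ := exists_reps hp
  obtain ⟨st, hst, hDu, hDu'⟩ := exists_st (χ := 1) hp (om G) om_nd (h.om' hZ) W hW hWW hall
  refine Pool.Agent.Y4.T.forms_mem' (fun Δ hΔ => fi_top Δ hΔ) (om G) om_nd (h.om' hZ) ?_ ?_ ?_ hp
    W hW hWW hall st hst hDu hDu' (NLie (mulVecLin (DS Z σ))) (clo_NLie _) ?_ ?_ φ ?_
  · intro U hU hn
    exact h.unip_of hZ (hrk U (hSI.1 hU) hn)
  · intro U hU hn
    exact h.line hZ (hSI.1 hU) hn
  · intro U U' hU hU' hn _ ψ hT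
    exact h.twist_sep hZ (hSI.1 hU) (hSI.1 hU') (hsep U U' (hSI.1 hU) (hSI.1 hU') hn) ψ hT
  · intro b hb i1 i2
    obtain rfl : i1 = Fin.fintype 2 := Subsingleton.elim _ _
    obtain rfl : i2 = instDecidableEqFin 2 := Subsingleton.elim _ _
    have h1 := (h.bil b (fun X hX => hZ.om_sp hX)).1 (fun X hX u v =>
      (gz_bil h.genI stab_top stab_top b).1 (fun g u _ v _ => by
        rw [hb, MonoidHom.one_apply, one_mul]) X hX u trivial v trivial)
    refine MultilinearMap.ext fun v => ?_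
    rw [ac_apply, Fin.sum_univ_two]
    exact h1 _ (DS_mem σ) _ _
  · intro a ha hag ι i1 i2 f q hq' ψ hψ i3 i4
    have hI : ∀ i, IrS (LZ Z) (W i) := fun i => hSI.1 (hW i)
    have hDuZ : ∀ i, Du (RZ Z) 1 (W i) (W (st i)) := fun i =>
      (h.du hZ (hI i).2.1 (hI _).2.1).1 (hDu i)
    have hX : ∀ i, ∀ u ∈ W i, mulVecLin (DS Z σ) u ∈ W i := fun i u hu =>
      (hI i).2.1 _ (DS_mem σ) u hu
    have hqX : ∀ x y, ∀ X ∈ LZ Z, ∀ v, (q x y (X *ᵥ v) : Fin G ⊕ Fin G → ℂ) =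
        X *ᵥ (q x y v : Fin G ⊕ Fin G → ℂ) := by
      intro x y X hX v
      have h1 := fun X hX w => (gz_equiv h.genI stab_top ((W x.1).subtype.comp (q x y))).1
        (fun g u _ => hq' x y g u) X hX w trivial
      exact (h.eqv ((W x.1).subtype.comp (q x y))).1 h1 X hX v
    have h5 := prod_det (mulVecLin (DS Z σ)) (I := (Σ i, Fin (a i).toNat)) (fun x => W x.1)
      (fun x => hX x.1) (by
        rw [Finset.sum_congr rfl fun x _ => trace_DS hZ σ (hI x.1).2.1 (hX x.1)]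
        exact_mod_cast sum_of_tr hZ W hI st hst hDuZ a ha σ.symm
          (h.tr_of_det hZ W hI a hag σ.symm)) (fun x => ι x.1) (fun x => f x.1) q
      (fun x y v => Subtype.ext (hqX x y _ (DS_mem σ) v)) ψ hψ
    obtain rfl : i3 = Sigma.instFintype := Subsingleton.elim _ _
    obtain rfl : i4 = Sigma.instDecidableEqSigma := Subsingleton.elim _ _
    exact h5
  · refine ⟨⊤, inferInstance, fun g _ v => ?_⟩
    rw [MonoidHom.one_apply, one_pow, one_mul]
    exact hφ g v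

/-- Tate tensors are killed by the Hodge Lie algebra. -/
theorem tate_kill (h : TD Z S) (hZ : PM Z)
    (hrk : ∀ U : Submodule ℂ (Fin G ⊕ Fin G → ℂ), IrS (LZ Z) U → 2 ≤ finrank ℂ U → HasRk S U)
    (hsep : ∀ U U' : Submodule ℂ (Fin G ⊕ Fin G → ℂ), IrS (LZ Z) U → IrS (LZ Z) U' →
      2 ≤ finrank ℂ U → SepP Z U U') {n : ℕ}
    (φ : MultilinearMap ℂ (fun _ : Fin n × Fin 2 => Fin G ⊕ Fin G → ℂ) ℂ)
    (hφ : ∀ D ∈ S, Kills (ph (Fin G ⊕ Fin G) D) φ) :
    ∀ X ∈ LZ Z, act X (CF φ) = 0 := by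
  have hinv : ∀ (g : Gam (GG (LT S))) v, φ (fun k => RG (GG (LT S)) g (v k)) = φ v := by
    intro g v
    refine inv_gam φ (fun D hD _ => ?_) g v
    obtain ⟨X, hX, rfl⟩ := exists_GG hD
    exact kills_LT hφ hX
  have h1 : LZ Z ≤ killL φ := LZ_le (fun σ => by
    refine act_of_kills fun v => ?_
    have h2 := congrArg (fun F : MV G (Fin n × Fin 2) => F v)
      (inv_kill h hZ hrk hsep φ hinv σ inferInstance inferInstance)
    simp only [ac_apply] at h2
    exact h2) (fun A hA C hC => act_bracket hA hC)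
  exact fun X hX => h1 hX

section loc

variable (hduo : Pool.Agent.Y224.OD.S_DUO) (hZ : PM Z)
  (hg : ∀ (a : ℕ) (Z' : Matrix (Fin a) (Fin a) ℂ) (E : Matrix (Fin G ⊕ Fin G) (Fin a ⊕ Fin a) ℚ)
    (F : Matrix (Fin a ⊕ Fin a) (Fin G ⊕ Fin G) ℚ), Fac Z Z' E F → PM Z' → IsSimpleAV Z' →
    0 < a → TypeT Z' ∨ Pool.Agent.Y4.Q.GcdM Z')

include hduo hZ hg

/-- Elements of rank one. -/
theorem rk_loc (h : TD Z S) {U : Submodule ℂ (Fin G ⊕ Fin G → ℂ)} (hU : IrS (LZ Z) U)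
    (hn : 2 ≤ finrank ℂ U) : HasRk S U := by
  obtain ⟨a, Z', E, F, hf, h', hs, ha, h0⟩ := exists_fac hZ hU.1
  have hi := hf.inj hU h0
  have hU' := hf.irr hU h0
  rcases hg a Z' E F hf h' hs ha with ht | ht
  · exact h.rk_of hZ hU hn (rkC_fac hf hZ h' hU hi (rkC_of h' hs ha ht hU'
      (by rw [finrank_ml hi]; exact hn)))
  · obtain ⟨hns, τ, h1, h2, h3, h4⟩ := gcC_fac hf hU hi (gcC_gcd h' hs ha ht hU')
    exact rk_gcd h hZ hduo hU hns τ h1 h2 h3 h4

omit hduo in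
/-- Separation. -/
theorem sep_loc (hsep : PQ.SepF Z) {U U' : Submodule ℂ (Fin G ⊕ Fin G → ℂ)}
    (hU : IrS (LZ Z) U) (hU' : IrS (LZ Z) U') (hn : 2 ≤ finrank ℂ U) : SepP Z U U' := by
  have key : ∀ {W : Submodule ℂ (Fin G ⊕ Fin G → ℂ)}, IrS (LZ Z) W → 2 ≤ finrank ℂ W →
      PQ.NS Z W ∨ PQ.MF Z W := fun {W} hW hn' =>
    (PQ.locT Pool.Agent.Y977.P.jtransfer Pool.Agent.Y4.P.jtransfer2 hZ
      (fun a Z' E F hf h' hs ha => by
        rcases hg a Z' E F hf h' hs ha with ht | ⟨φ, hφ, hcm, -⟩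
        · exact classT5 h' hs ha ht
        · obtain ⟨s1, s2, s3⟩ := Pool.Agent.Y261.P.jspec a Z' h' hs ha φ hφ
          intro U hU
          obtain ⟨z, hz, T, hT, hi, hm⟩ := s2 U hU
          refine ⟨fun _ => Or.inr ⟨φ, hφ, hcm, z, hz, fun σ => ⟨?_, ?_⟩⟩,
            Or.inr (Pool.Agent.Y4.P.pd_of_map hT hi (by rw [hm]; exact s3 hcm z hz))⟩
          · rw [← PQ.pd_cj_map hT hi hU.2.1, hm, Pool.Agent.Y4.P.cjS_eigM]
          · rw [← PQ.qd_cj_map h' hT hi hU.2.1, hm, Pool.Agent.Y4.P.cjS_eigM]) hW).1 hn'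
  intro hfr
  exact PQ.sepP_of hZ hsep hU hU' hn (key hU hn) (key hU' (by rw [hfr]; exact hn)) hfr

end loc

end

end Pool.Agent.Y91.L
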