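import Mathlib
import Pool.Agent.Y91.L.Kill
import Pool.Agent.Y224.TS.D11
import Pool.Agent.Y4.P.Goo4

/-!
# The Mumford-Tate conjecture: Tate tensors are combinations of Hodge tensors
-/

set_option linter.unusedSectionVars false

namespace Pool.Agent.Y91.L

open Matrix Module Pool.Agent.W437.HC Pool.Agent.W437.HD Pool.Agent.W548.Odd Pool.Agent.Y90
open Pool.Agent.H204R3.SP Pool.Agent.H204R3.GP TensorProduct Pool.Agent.Y224.TS
open St (IsHodgeTate IsTateModule)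
open Pool.Agent.H204R3.CM (HodgeMul)
open Pool.Agent.TH504.CB (evalF_castK rot_of_act act_real)
open Pool.Agent.W437.HP (cK cK_mul cK_one)
open Pool.Agent.Y4.P.G3 (Sd exists_sd)
open Pool.Agent.Y90.St (IsSimpleSub IsCMSub)
open Pool.Agent.Y4.Q (IsRealOddSub IsCoprimeSub IsIndivisibleSub IsTwoTwoSub IsSeparated)

noncomputable section

/-- Forms killed by the complex structure satisfy the Hodge condition. -/
theorem hodgeMul_of {B : Type} [Fintype B] [DecidableEq B] {T : Type} [AddCommGroup T] [Module ℂ T]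
    {per : (B → ℚ) →+ T} {J : Matrix B B ℝ} (h : Cht per J) {κ : Type} [Fintype κ]
    [DecidableEq κ] {c : (κ → B) → ℚ} (hc : IsH (DJ J) c) : HodgeMul per (evalM c) := by
  obtain ⟨P, I, hP1, hP2, hI1, hI2⟩ := h.ex
  refine ⟨(evalM (cst ℝ c)).compLinearMap (fun _ => I), fun v => ?_, fun z hz u => ?_⟩
  · rw [MultilinearMap.compLinearMap_apply, evalM_apply, evalM_apply, evalF_castK]
    congr 1
    funext k
    rw [← hP1, hI1]
  · rw [MultilinearMap.compLinearMap_apply, MultilinearMap.compLinearMap_apply, evalM_apply,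
      evalM_apply]
    have h1 : z.re = Real.cos z.arg ∧ z.im = Real.sin z.arg := by
      have h2 := Complex.norm_mul_cos_arg z
      have h3 := Complex.norm_mul_sin_arg z
      rw [hz, one_mul] at h2 h3
      exact ⟨h2.symm, h3.symm⟩
    have h2 : (fun k => I (z • u k)) = fun k => Real.cos z.arg • I (u k) +
        Real.sin z.arg • (J *ᵥ I (u k)) := by
      funext k
      rw [← hI1 (Real.cos z.arg • I (u k) + Real.sin z.arg • (J *ᵥ I (u k))), map_add P,
        map_smul P, map_smul P, hP2, hI2, smul_rot, ← h1.1, ← h1.2, Complex.re_add_im]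
    rw [h2]
    exact rot_of_act h.sq ((act_real (J := J) (D := DJ J) rfl).1 hc) z.arg _

/-- Each simple abelian subvariety `U` of `X` has complex multiplication, or its dimension is one or
a prime number, or it has one of the types `IsRealOddSub`, `IsCoprimeSub`, `IsIndivisibleSub`,
`IsTwoTwoSub` of `Pool.Agent.Y4.P.Stm4`. -/
def GoodType {H T : Type} [AddCommGroup H] [Module ℚ H] [AddCommGroup T] [Module ℂ T]
    (per : H →+ T) : Prop :=
  ∀ U : Submodule ℚ H, IsSimpleSub per U → IsCMSub per U ∨ Module.finrank ℚ U = 2 ∨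
    (∃ p : ℕ, p.Prime ∧ Module.finrank ℚ U = 2 * p) ∨ IsRealOddSub per U ∨
    IsCoprimeSub per U ∨ IsIndivisibleSub per U ∨ IsTwoTwoSub per U

variable {H : Type} [AddCommGroup H] [Module ℚ H] {K : Type} [Field K] [CharZero K] [Algebra K ℂ]
  {T : Type} [AddCommGroup T] [Module ℂ T] {per : H →+ T} {Γ : Type} [Group Γ]
  {ρ : Representation K Γ (K ⊗[ℚ] H)} {χ : Γ →* K} {E : H → H → ℚ}

/-- The simple factors of the period matrix. -/
theorem types_of {G : ℕ} {Z : Matrix (Fin G) (Fin G) ℂ} (A : H ≃ₗ[ℚ] (Fin G ⊕ Fin G → ℚ))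
    (hC : Cht (per.comp A.symm.toLinearMap.toAddMonoidHom) (JR Z)) (hs : GoodType per)
    (ht : IsSeparated per) :
    (∀ (a : ℕ) (Z' : Matrix (Fin a) (Fin a) ℂ) (E : Matrix (Fin G ⊕ Fin G) (Fin a ⊕ Fin a) ℚ)
      (F : Matrix (Fin a ⊕ Fin a) (Fin G ⊕ Fin G) ℚ), Fac Z Z' E F → PM Z' → IsSimpleAV Z' →
      0 < a → TypeT Z' ∨ Pool.Agent.Y4.Q.GcdM Z') ∧ PQ.SepF Z := by
  refine ⟨fun a Z' E F hfac h' hsim ha => ?_, ?_⟩
  · obtain ⟨U, e, Ψ₁, Ψ₂, s⟩ := exists_sd A hC hfac h' hsim ha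
    rcases hs U s.sim with h1 | h1 | ⟨p, hp, h1⟩ | h1 | h1 | h1 | h1
    · exact Or.inl (Or.inl (s.hasCM h' ha h1))
    · left; right; left
      rw [s.rank] at h1
      omega
    · left; right; right; left
      rw [s.rank] at h1
      rwa [show a = p by omega]
    · left; right; right; right; left
      exact s.realOddM h' h1
    · left; right; right; right; right; left
      exact Pool.Agent.Y4.Q.cop4 s h' h1
    · right
      exact Pool.Agent.Y4.Q.gcdM s h' h1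
    · left; right; right; right; right; right
      exact s.twoTwo h' Pool.Agent.Y4.P.jtang3 (by
        obtain ⟨b, Ψ, h2, h3, h4, h5⟩ := h1
        exact ⟨b, Ψ, h2, h3, h4, h5⟩)
  · intro a₁ a₂ Z₁ Z₂ E₁ F₁ E₂ F₂ hf₁ hf₂ h₁ h₂ hs₁ hs₂ ha₁ ha₂ φ₁ φ₂ m₁ m₂ c₁ c₂
    obtain ⟨U₁, e₁, Ψ₁, Ψ₂, s₁⟩ := exists_sd A hC hf₁ h₁ hs₁ ha₁
    obtain ⟨U₂, e₂, Ψ₃, Ψ₄, s₂⟩ := exists_sd A hC hf₂ h₂ hs₂ ha₂
    exact Pool.Agent.Y4.Q.sepM s₁ s₂ h₁ h₂ ht m₁ m₂ c₁ c₂

/-- **Tate tensors are combinations of Hodge tensors.** -/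
theorem tate_hodge [Algebra.IsAlgebraic K ℂ] (hduo : Pool.Agent.Y224.OD.S_DUO)
    (hX : Pool.Agent.Y90.St.IsAV per) (hs : GoodType per) (ht : IsSeparated per)
    (hE : Pool.Agent.Y90.St.IsPolarization per E) (hρ : IsTateModule per E ρ χ) {κ : Type}
    [Finite κ] {n : ℕ} (hκ : Nat.card κ = 2 * n)
    (φ : MultilinearMap K (fun _ : κ => K ⊗[ℚ] H) K)
    (hφ : ∃ Δ : Subgroup Γ, Δ.FiniteIndex ∧ ∀ g ∈ Δ, ∀ v : κ → K ⊗[ℚ] H,
      φ (fun k => ρ g (v k)) = χ g ^ n * φ v) :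
    ∃ (N : ℕ) (c : Fin N → K) (f : Fin N → MultilinearMap ℚ (fun _ : κ => H) ℚ),
      (∀ j, HodgeMul per (f j)) ∧
        ∀ v : κ → H, φ (fun k => (1 : K) ⊗ₜ[ℚ] v k) = ∑ j, c j * ((f j v : ℚ) : K) := by
  classical
  obtain ⟨a, Z, hZ, b, hC, hb⟩ := exists_ppav' hX hE
  obtain ⟨hty, hsep⟩ := types_of b.equivFun hC hs ht
  have hTD : TD Z (SH per ρ χ b) := td_of b hb hC hρ
  let _ : Fintype κ := Fintype.ofFinite κ
  have e : κ ≃ Fin n × Fin 2 := Fintype.equivOfCardEq (by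
    rw [← Nat.card_eq_fintype_card, hκ, Fintype.card_prod, Fintype.card_fin, Fintype.card_fin,
      mul_comm])
  let φ' : MultilinearMap K (fun _ : Fin n × Fin 2 => K ⊗[ℚ] H) K := φ.domDomCongr e
  have hφ' : ∀ v, φ' v = φ (fun k => v (e k)) := fun v => rfl
  have hT : IsTate ρ χ n φ' := by
    obtain ⟨Δ, hΔ, h⟩ := hφ
    refine ⟨Δ, hΔ, fun s hs v => ?_⟩
    rw [hφ', hφ']
    exact h s hs (fun k => v (e k))
  have hkill := tate_kill hTD hZ (fun U hU hn => rk_loc hduo hZ hty hTD hU hn)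
    (fun U U' hU hU' hn => sep_loc hZ hty hsep hU hU' hn) (FC b φ') (FC_kills b φ' hT)
  -- the rational parts
  obtain ⟨per', hper'⟩ : ∃ per' : (Fin a ⊕ Fin a → ℚ) →+ T,
    per' = per.comp b.equivFun.symm.toLinearMap.toAddMonoidHom := ⟨_, rfl⟩
  rw [← hper'] at hC
  let S : Set ((Fin n × Fin 2 → (Fin a ⊕ Fin a → ℚ)) → K) :=
    {s | ∃ r : MultilinearMap ℚ (fun _ : Fin n × Fin 2 => (Fin a ⊕ Fin a → ℚ)) ℚ,
      HodgeMul per' r ∧ s = fun v => ((r v : ℚ) : K)}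
  have h2 : (fun v : Fin n × Fin 2 → (Fin a ⊕ Fin a → ℚ) =>
      algebraMap K ℂ (φ' (fun k => (1 : K) ⊗ₜ[ℚ] b.equivFun.symm (v k)))) ∈
        Submodule.span ℂ {g : (Fin n × Fin 2 → Fin a ⊕ Fin a → ℚ) → ℂ |
          ∃ s ∈ S, g = fun v => algebraMap K ℂ (s v)} := by
    obtain ⟨m, c, l, hml⟩ := rat_expand (FC b φ')
    have h3 : (fun v : Fin n × Fin 2 → (Fin a ⊕ Fin a → ℚ) =>
        algebraMap K ℂ (φ' (fun k => (1 : K) ⊗ₜ[ℚ] b.equivFun.symm (v k)))) =
        ∑ j, c j • fun v : Fin n × Fin 2 → (Fin a ⊕ Fin a → ℚ) =>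
          algebraMap K ℂ (((evalM (fun I => l j (CF (FC b φ') I)) v : ℚ) : K)) := by
      funext v
      rw [← FC_rat, hml v, Finset.sum_apply]
      refine Finset.sum_congr rfl fun j _ => ?_
      rw [Pi.smul_apply, smul_eq_mul, map_ratCast, lam_eval, evalM_apply]
    rw [h3]
    refine Submodule.sum_mem _ fun j _ => Submodule.smul_mem _ _ (Submodule.subset_span ?_)
    refine ⟨_, ⟨evalM (fun I => l j (CF (FC b φ') I)), hodgeMul_of hC ?_, rfl⟩, rfl⟩
    exact kill_lam gal_LZ hkill (l j) _ DZ_mem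
  have h3 : (fun v : Fin n × Fin 2 → (Fin a ⊕ Fin a → ℚ) =>
      φ' (fun k => (1 : K) ⊗ₜ[ℚ] b.equivFun.symm (v k))) ∈ Submodule.span K S := by
    refine span_descent_k (Ω := ℂ) S _ ?_
    refine Submodule.span_mono ?_ h2
    rintro g ⟨s, hs, rfl⟩
    exact ⟨s, hs, rfl⟩
  obtain ⟨N, c, s, hs'⟩ := Submodule.mem_span_set'.1 h3
  choose r hr hr' using fun j => (s j).2
  refine ⟨N, c, fun j => ((r j).compLinearMap fun _ => b.equivFun.toLinearMap).domDomCongr e.symm,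
    fun j => ?_, fun v => ?_⟩
  · obtain ⟨ψ, h4, h5⟩ := hr j
    refine ⟨ψ.domDomCongr e.symm, fun v => ?_, fun z hz u => ?_⟩
    · rw [MultilinearMap.domDomCongr_apply, MultilinearMap.domDomCongr_apply,
        MultilinearMap.compLinearMap_apply, ← h4]
      congr 1
      funext k
      rw [hper']
      change _ = per (b.equivFun.symm (b.equivFun (v (e.symm k))))
      rw [LinearEquiv.symm_apply_apply]
    · rw [MultilinearMap.domDomCongr_apply, MultilinearMap.domDomCongr_apply]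
      exact h5 z hz _
  · have h4 := congrFun hs' (fun k => b.equivFun (v (e.symm k)))
    beta_reduce at h4
    rw [hφ'] at h4
    have h5 : (fun k => (1 : K) ⊗ₜ[ℚ] b.equivFun.symm (b.equivFun (v (e.symm (e k))))) =
        fun k => (1 : K) ⊗ₜ[ℚ] v k := by
      funext k
      rw [LinearEquiv.symm_apply_apply, Equiv.symm_apply_apply]
    rw [h5] at h4
    rw [← h4, Finset.sum_apply]
    refine Finset.sum_congr rfl fun j _ => ?_
    rw [Pi.smul_apply, smul_eq_mul, hr' j]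
    rfl

end

end Pool.Agent.Y91.L
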