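import Mathlib
import Pool.Agent.Y91.L.Tens
import Pool.Agent.Y71.OD2.Duo

/-!
# The Tate tensors for all primes are spanned by the Hodge tensors
-/

set_option linter.unusedSectionVars false

namespace Pool.Agent.Y91.L

open Matrix Module Pool.Agent.W437.HC Pool.Agent.Y90 TensorProduct
open Pool.Agent.H204R3.CM (HodgeMul)
open Pool.Agent.TH504.CB (evalF_castK multi_eq)

noncomputable section

variable {H : Type} [AddCommGroup H] [Module ℚ H] {K : Type} [Field K] [CharZero K]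
  {T : Type} [AddCommGroup T] [Module ℂ T] {per : H →+ T} {Γ : Type} [Group Γ]
  {κ : Type}

/-- The multilinear form `φ` on `K ⊗ H` extends the rational multilinear form `f` on `H`. -/
def Extends (K : Type) [Field K] [CharZero K] (f : MultilinearMap ℚ (fun _ : κ => H) ℚ)
    (φ : MultilinearMap K (fun _ : κ => K ⊗[ℚ] H) K) : Prop :=
  ∀ v : κ → H, φ (fun k => (1 : K) ⊗ₜ[ℚ] v k) = ((f v : ℚ) : K)

/-- Tate tensors of weight `n`: multilinear forms in `2 n` variables on which a subgroup of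
finite index acts through the `n`-th power of the character `χ`. -/
def IsTateTensor (ρ : Representation K Γ (K ⊗[ℚ] H)) (χ : Γ →* K) (n : ℕ)
    (φ : MultilinearMap K (fun _ : Fin (2 * n) => K ⊗[ℚ] H) K) : Prop :=
  ∃ Δ : Subgroup Γ, Δ.FiniteIndex ∧ ∀ g ∈ Δ, ∀ v : Fin (2 * n) → K ⊗[ℚ] H,
    φ (fun k => ρ g (v k)) = χ g ^ n * φ v

theorem IsTateTensor.zero {ρ : Representation K Γ (K ⊗[ℚ] H)} {χ : Γ →* K} {n : ℕ} :
    IsTateTensor ρ χ n 0 :=
  ⟨⊤, inferInstance, fun g _ v => by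
    rw [_root_.zero_apply, _root_.zero_apply, mul_zero]⟩

theorem IsTateTensor.add {ρ : Representation K Γ (K ⊗[ℚ] H)} {χ : Γ →* K} {n : ℕ}
    {a b : MultilinearMap K (fun _ : Fin (2 * n) => K ⊗[ℚ] H) K} (ha : IsTateTensor ρ χ n a)
    (hb : IsTateTensor ρ χ n b) : IsTateTensor ρ χ n (a + b) := by
  obtain ⟨Δ₁, h₁, h₁'⟩ := ha
  obtain ⟨Δ₂, h₂, h₂'⟩ := hb
  have := h₁
  have := h₂
  refine ⟨Δ₁ ⊓ Δ₂, inferInstance, fun g hg v => ?_⟩
  rw [_root_.add_apply, _root_.add_apply, h₁' g hg.1, h₂' g hg.2, mul_add]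

theorem IsTateTensor.smul {ρ : Representation K Γ (K ⊗[ℚ] H)} {χ : Γ →* K} {n : ℕ}
    {a : MultilinearMap K (fun _ : Fin (2 * n) => K ⊗[ℚ] H) K} (ha : IsTateTensor ρ χ n a)
    (c : K) : IsTateTensor ρ χ n (c • a) := by
  obtain ⟨Δ, h, h'⟩ := ha
  refine ⟨Δ, h, fun g hg v => ?_⟩
  rw [_root_.smul_apply, _root_.smul_apply, h' g hg, smul_eq_mul, smul_eq_mul]
  ring

/-- Rational multilinear forms have extensions. -/
theorem exists_extends [FiniteDimensional ℚ H] [Finite κ]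
    (f : MultilinearMap ℚ (fun _ : κ => H) ℚ) :
    ∃ φ : MultilinearMap K (fun _ : κ => K ⊗[ℚ] H) K, Extends K f φ := by
  classical
  let _ : Fintype κ := Fintype.ofFinite κ
  let b := Module.finBasis ℚ H
  let g : MultilinearMap ℚ (fun _ : κ => (Fin (finrank ℚ H) → ℚ)) ℚ :=
    f.compLinearMap (fun _ => b.equivFun.symm.toLinearMap)
  refine ⟨(evalM (cst K (fun I => g (fun k => Pi.single (I k) 1)))).compLinearMap
    (fun _ => (b.baseChange K).equivFun.toLinearMap), fun v => ?_⟩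
  rw [MultilinearMap.compLinearMap_apply, evalM_apply]
  have h1 : f v = g (fun k => b.equivFun (v k)) := by
    change f v = f (fun k => b.equivFun.symm (b.equivFun (v k)))
    congr 1
    funext k
    rw [LinearEquiv.symm_apply_apply]
  rw [h1, multi_eq g, evalF_castK]
  congr 1
  funext k i
  change (b.baseChange K).repr ((1 : K) ⊗ₜ[ℚ] v k) i = _
  rw [Basis.baseChange_repr_tmul, Basis.equivFun_apply, Algebra.smul_def, mul_one]
  exact eq_ratCast (algebraMap ℚ K) _

/-- Multilinear forms on `K ⊗ H` are given by their values on `H`. -/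
theorem ext_of_extends [FiniteDimensional ℚ H] [Finite κ]
    {φ ψ : MultilinearMap K (fun _ : κ => K ⊗[ℚ] H) K}
    (h : ∀ v : κ → H, φ (fun k => (1 : K) ⊗ₜ[ℚ] v k) = ψ (fun k => (1 : K) ⊗ₜ[ℚ] v k)) :
    φ = ψ := by
  classical
  let b := Module.finBasis ℚ H
  refine Basis.ext_multilinear (fun _ => b.baseChange K) fun I => ?_
  simp only [Basis.baseChange_apply]
  exact h fun k => b (I k)

/-- **The Tate tensors are spanned by the Hodge tensors.** -/
theorem tate_span [Algebra K ℂ] [Algebra.IsAlgebraic K ℂ]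
    (hX : Pool.Agent.Y90.St.IsAV per) (hs : GoodType per)
    (ht : Pool.Agent.Y4.Q.IsSeparated per) {E : H → H → ℚ}
    {ρ : Representation K Γ (K ⊗[ℚ] H)} {χ : Γ →* K}
    (hE : Pool.Agent.Y90.St.IsPolarization per E)
    (hρ : Pool.Agent.Y224.TS.St.IsTateModule per E ρ χ)
    (hD : ∀ n, ∀ f : MultilinearMap ℚ (fun _ : Fin (2 * n) => H) ℚ, HodgeMul per f →
      ∀ φ, Extends K f φ → IsTateTensor ρ χ n φ) (n : ℕ)
    (φ : MultilinearMap K (fun _ : Fin (2 * n) => K ⊗[ℚ] H) K) :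
    IsTateTensor ρ χ n φ ↔ φ ∈ Submodule.span K
      {ψ | ∃ f : MultilinearMap ℚ (fun _ : Fin (2 * n) => H) ℚ, HodgeMul per f ∧
        Extends K f ψ} := by
  have : FiniteDimensional ℚ H := hX.1
  refine ⟨fun hφ => ?_, fun hφ => ?_⟩
  · obtain ⟨N, c, f, hf, hφf⟩ := tate_hodge Pool.Agent.Y71.OD2.duo hX hs ht hE hρ
      (κ := Fin (2 * n)) (n := n) (Nat.card_fin _) φ hφ
    choose ψ hψ using fun j => exists_extends (K := K) (f j)
    have h1 : φ = ∑ j, c j • ψ j := by
      refine ext_of_extends fun v => ?_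
      rw [hφf, _root_.sum_apply]
      refine Finset.sum_congr rfl fun j _ => ?_
      rw [_root_.smul_apply, hψ j, smul_eq_mul]
    rw [h1]
    exact Submodule.sum_mem _ fun j _ => Submodule.smul_mem _ _
      (Submodule.subset_span ⟨f j, hf j, hψ j⟩)
  · refine Submodule.span_induction (p := fun ψ _ => IsTateTensor ρ χ n ψ) ?_ ?_ ?_ ?_ hφ
    · rintro ψ ⟨f, hf, h1⟩
      exact hD n f hf ψ h1
    · exact IsTateTensor.zero
    · intro a b _ _ ha hb
      exact ha.add hb
    · intro c a _ ha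
      exact ha.smul c

end

end Pool.Agent.Y91.L
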