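import Mathlib
import Pool.Agent.Y91.L.Com
import Pool.Agent.Y130.GS.Main

/-!
# The monodromy groups are determined by the Hodge tensors
-/

set_option linter.unusedSectionVars false

namespace Pool.Agent.Y91.L

open Matrix Module Pool.Agent.W437.HC Pool.Agent.Y90 TensorProduct
open Pool.Agent.H204R3.CM (HodgeMul)
open Pool.Agent.Y130.GS (monodromy TensorSemisimple Subvariety IsGaloisSpecial IsTateForm monodromy_le
  monodromy_ge)

noncomputable section

variable {H : Type} [AddCommGroup H] [Module ℚ H] {K : Type} [Field K] [CharZero K]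
  {T : Type} [AddCommGroup T] [Module ℂ T] {per : H →+ T} {Γ : Type} [Group Γ]

/-- Each subgroup of finite index contains an element which acts as a scalar that is not a root of
unity. This is true for the Tate modules of abelian varieties by a theorem of Bogomolov. -/
def HasHomotheties {M : Type} [AddCommGroup M] [Module K M] (ρ : Representation K Γ M) : Prop :=
  ∀ Δ : Subgroup Γ, Δ.FiniteIndex → ∃ g ∈ Δ, ∃ c : K, (∀ v, ρ g v = c • v) ∧
    ∀ k : ℕ, 0 < k → c ^ k ≠ 1

/-- The extensions of the Hodge tensors (given by `per`) are Tate tensors for the representation `τ`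
and the character `χ`. -/
def HodgeTensorsAreTate (per : H →+ T) (τ : Representation K Γ (K ⊗[ℚ] H)) (χ : Γ →* K) : Prop :=
  ∀ (n : ℕ) (f : MultilinearMap ℚ (fun _ : Fin (2 * n) => H) ℚ), HodgeMul per f →
    ∀ φ : MultilinearMap K (fun _ : Fin (2 * n) => K ⊗[ℚ] H) K, Extends K f φ →
      IsTateTensor τ χ n φ

theorem nondeg_of (hX : Pool.Agent.Y90.St.IsAV per) {E : H → H → ℚ}
    (hE : Pool.Agent.Y90.St.IsPolarization per E)
    {ω : (K ⊗[ℚ] H) →ₗ[K] (K ⊗[ℚ] H) →ₗ[K] K}
    (hω : ∀ u v : H, ω (1 ⊗ₜ u) (1 ⊗ₜ v) = ((E u v : ℚ) : K)) :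
    ∀ x, (∀ y, ω x y = 0) → x = 0 := by
  obtain ⟨a, Z, hZ, b, hC, hb⟩ := Pool.Agent.Y224.TS.exists_ppav' hX hE
  intro x hx
  let b' := b.baseChange K
  have h1 : Om a K *ᵥ (fun q => b'.repr x q) = 0 := by
    funext p
    have h2 : ω (∑ q, b'.repr x q • b' q) (b' p) = 0 := by
      rw [b'.sum_repr x]
      exact hx (b' p)
    rw [map_sum, LinearMap.sum_apply] at h2
    change ∑ q, Om a K p q * b'.repr x q = 0
    refine Eq.trans (Finset.sum_congr rfl fun q _ => ?_) h2
    have h5 : ω (b' q) (b' p) = Om a K p q := by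
      rw [Basis.baseChange_apply, Basis.baseChange_apply, hω, hb, ← Om_map K, Matrix.map_apply]
    rw [map_smul, LinearMap.smul_apply, smul_eq_mul, h5, mul_comm]
  have h3 : (fun q => b'.repr x q) = 0 := by
    have h4 : Om a K *ᵥ (Om a K *ᵥ (fun q => b'.repr x q)) = 0 := by
      rw [h1, mulVec_zero]
    rw [mulVec_mulVec, Om_sq, neg_mulVec, one_mulVec, neg_eq_zero] at h4
    exact h4
  refine b'.ext_elem fun q => ?_
  rw [map_zero, Finsupp.zero_apply]
  exact congrFun h3 q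

variable [Algebra K ℂ] [Algebra.IsAlgebraic K ℂ]

/-- Tate tensors are combinations of extensions of Hodge tensors. -/
theorem mem_span_of (hX : Pool.Agent.Y90.St.IsAV per) (hs : GoodType per)
    (ht : Pool.Agent.Y4.Q.IsSeparated per) {E : H → H → ℚ}
    {ρ : Representation K Γ (K ⊗[ℚ] H)} {χ : Γ →* K}
    (hE : Pool.Agent.Y90.St.IsPolarization per E)
    (hρ : Pool.Agent.Y224.TS.St.IsTateModule per E ρ χ) {n : ℕ}
    {φ : MultilinearMap K (fun _ : Fin (2 * n) => K ⊗[ℚ] H) K} (hφ : IsTateTensor ρ χ n φ) :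
    φ ∈ Submodule.span K {ψ | ∃ f : MultilinearMap ℚ (fun _ : Fin (2 * n) => H) ℚ,
      HodgeMul per f ∧ Extends K f ψ} := by
  have : FiniteDimensional ℚ H := hX.1
  obtain ⟨N, c, f, hf, hφf⟩ := tate_hodge Pool.Agent.Y71.OD2.duo hX hs ht hE hρ
    (κ := Fin (2 * n)) (n := n) (Nat.card_fin _) φ hφ
  choose ψ hψ using fun j => exists_extends (K := K) (f j)
  have h1 : φ = ∑ j, c j • ψ j := by
    refine ext_of_extends fun v => ?_
    rw [hφf, _root_.sum_apply]
    refine Finset.sum_congr rfl fun j _ => ?_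
    rw [_root_.smul_apply, hψ j, smul_eq_mul]
  rw [h1]
  exact Submodule.sum_mem _ fun j _ => Submodule.smul_mem _ _
    (Submodule.subset_span ⟨f j, hf j, hψ j⟩)

/-- Tate forms with a wrong number of variables are zero. -/
theorem zero_of_ne [Nontrivial H] (hX : Pool.Agent.Y90.St.IsAV per) {E : H → H → ℚ}
    {ρ : Representation K Γ (K ⊗[ℚ] H)} {χ : Γ →* K}
    (hE : Pool.Agent.Y90.St.IsPolarization per E)
    {ω : (K ⊗[ℚ] H) →ₗ[K] (K ⊗[ℚ] H) →ₗ[K] K}
    (hω : ∀ u v : H, ω (1 ⊗ₜ u) (1 ⊗ₜ v) = ((E u v : ℚ) : K))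
    (hωρ : ∀ g u v, ω (ρ g u) (ρ g v) = χ g * ω u v) (hB : HasHomotheties ρ) {S : Type} [Fintype S]
    {m : ℕ} {φ : MultilinearMap K (fun _ : S => K ⊗[ℚ] H) K} (hφ : IsTateForm ρ χ m φ)
    (hc : Fintype.card S ≠ 2 * m) : φ = 0 := by
  have : FiniteDimensional ℚ H := hX.1
  obtain ⟨Δ, hΔ, h⟩ := hφ
  obtain ⟨g, hg, c, hgc, hroot⟩ := hB Δ hΔ
  obtain ⟨x, hx⟩ : ∃ x : K ⊗[ℚ] H, x ≠ 0 := by
    obtain ⟨u, hu⟩ := exists_ne (0 : H)
    refine ⟨(1 : K) ⊗ₜ[ℚ] u, fun h0 => hu ?_⟩
    let b := Module.finBasis ℚ H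
    refine b.ext_elem fun i => ?_
    have h1 := congrArg (fun y => (b.baseChange K).repr y i) h0
    rw [Basis.baseChange_repr_tmul, map_zero, Finsupp.zero_apply, Algebra.smul_def, mul_one] at h1
    rw [map_zero, Finsupp.zero_apply]
    exact (FaithfulSMul.algebraMap_eq_zero_iff ℚ K).1 h1
  have hc0 : c ≠ 0 := by
    rintro rfl
    have h1 := hgc (ρ g⁻¹ x)
    rw [zero_smul, ← Module.End.mul_apply, ← map_mul, mul_inv_cancel, map_one,
      Module.End.one_apply] at h1
    exact hx h1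
  have hχ : χ g = c ^ 2 := by
    obtain ⟨y, hy⟩ : ∃ y, ω x y ≠ 0 := by
      by_contra hcon
      push Not at hcon
      exact hx (nondeg_of hX hE hω x hcon)
    have h1 := hωρ g x y
    rw [hgc, hgc, map_smul, map_smul, LinearMap.smul_apply, smul_eq_mul, smul_eq_mul] at h1
    refine mul_right_cancel₀ hy ?_
    rw [← h1]
    ring
  ext v
  rw [_root_.zero_apply]
  by_contra hv
  have h1 := h g hg v
  have h2 : φ (fun l => ρ g (v l)) = c ^ Fintype.card S * φ v := by
    rw [show (fun l => ρ g (v l)) = fun l => c • v l from funext fun l => hgc (v l),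
      MultilinearMap.map_smul_univ, Finset.prod_const, Finset.card_univ, smul_eq_mul]
  rw [h2, hχ, ← pow_mul] at h1
  have h3 : c ^ Fintype.card S = c ^ (2 * m) := mul_right_cancel₀ hv h1
  rcases lt_or_gt_of_ne hc with h4 | h4
  · refine hroot (2 * m - Fintype.card S) (by omega) ?_
    have h5 : c ^ Fintype.card S * c ^ (2 * m - Fintype.card S) = c ^ Fintype.card S * 1 := by
      rw [← pow_add, Nat.add_sub_cancel' h4.le, mul_one, h3]
    exact mul_left_cancel₀ (pow_ne_zero _ hc0) h5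
  · refine hroot (Fintype.card S - 2 * m) (by omega) ?_
    have h5 : c ^ (2 * m) * c ^ (Fintype.card S - 2 * m) = c ^ (2 * m) * 1 := by
      rw [← pow_add, Nat.add_sub_cancel' h4.le, mul_one, h3]
    exact mul_left_cancel₀ (pow_ne_zero _ hc0) h5

/-- **Transfer of Tate forms.** -/
theorem transfer91 [Nontrivial H] (hX : Pool.Agent.Y90.St.IsAV per) (hs : GoodType per)
    (ht : Pool.Agent.Y4.Q.IsSeparated per) {E : H → H → ℚ}
    {ρ : Representation K Γ (K ⊗[ℚ] H)} {χ : Γ →* K}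
    (hE : Pool.Agent.Y90.St.IsPolarization per E)
    (hρ : Pool.Agent.Y224.TS.St.IsTateModule per E ρ χ) (hB : HasHomotheties ρ)
    {G : Type} [Group G] {τ : Representation K G (K ⊗[ℚ] H)} {χ' : G →* K}
    (hH : HodgeTensorsAreTate per τ χ') (S : Type) [Fintype S] (m : ℕ)
    (φ : MultilinearMap K (fun _ : S => K ⊗[ℚ] H) K) (hφ : IsTateForm ρ χ m φ) :
    IsTateForm τ χ' m φ := by
  by_cases hc : Fintype.card S = 2 * m
  · let e : S ≃ Fin (2 * m) := Fintype.equivFinOfCardEq hc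
    have h1 : IsTateTensor ρ χ m (φ.domDomCongr e) := by
      obtain ⟨Δ, hΔ, h⟩ := hφ
      exact ⟨Δ, hΔ, fun g hg v => h g hg fun k => v (e k)⟩
    have h2 : IsTateTensor τ χ' m (φ.domDomCongr e) := by
      refine Submodule.span_induction (p := fun ψ _ => IsTateTensor τ χ' m ψ) ?_ ?_ ?_ ?_
        (mem_span_of hX hs ht hE hρ h1)
      · rintro ψ ⟨f, hf, h1⟩
        exact hH m f hf ψ h1
      · exact IsTateTensor.zero
      · intro a b _ _ ha hb
        exact ha.add hb
      · intro c a _ ha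
        exact ha.smul c
    obtain ⟨Δ, hΔ, h⟩ := h2
    refine ⟨Δ, hΔ, fun g hg v => ?_⟩
    have h3 := h g hg fun k => v (e.symm k)
    rw [MultilinearMap.domDomCongr_apply, MultilinearMap.domDomCongr_apply] at h3
    simpa only [Equiv.symm_apply_apply] using h3
  · obtain ⟨ω, hω, hωρ⟩ := hρ.weil
    rw [zero_of_ne hX hE hω hωρ hB hφ hc]
    exact ⟨⊤, inferInstance, fun g _ v => by rw [_root_.zero_apply, _root_.zero_apply, mul_zero]⟩

/-- **The monodromy groups.** -/
theorem monodromy_le91 [Nontrivial H] [FiniteDimensional K (K ⊗[ℚ] H)]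
    (hX : Pool.Agent.Y90.St.IsAV per) (hs : GoodType per)
    (ht : Pool.Agent.Y4.Q.IsSeparated per) {E : H → H → ℚ}
    {ρ : Representation K Γ (K ⊗[ℚ] H)} {χ : Γ →* K}
    (hE : Pool.Agent.Y90.St.IsPolarization per E)
    (hρ : Pool.Agent.Y224.TS.St.IsTateModule per E ρ χ) (hB : HasHomotheties ρ)
    (hss : TensorSemisimple ρ) {G : Type} [Group G] {τ : Representation K G (K ⊗[ℚ] H)}
    {χ' : G →* K} (hH : HodgeTensorsAreTate per τ χ') : monodromy τ ⊆ monodromy ρ := by
  obtain ⟨ω, hω, hωρ⟩ := hρ.weil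
  exact monodromy_le ω (nondeg_of hX hE hω) hωρ hss
    fun S _ m φ hφ => transfer91 hX hs ht hE hρ hB hH S m φ hφ

end

end Pool.Agent.Y91.L
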