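import Mathlib
import Pool.Agent.Y91.L.Com

/-!
# Tate tensors over a fixed number field
-/

set_option linter.unusedSectionVars false

namespace Pool.Agent.Y91.L

open Matrix Module Pool.Agent.W437.HC Pool.Agent.Y90 TensorProduct
open Pool.Agent.H204R3.CM (HodgeMul)

noncomputable section

variable {H : Type} [AddCommGroup H] [Module ℚ H] {K : Type} [Field K] [CharZero K]
  {T : Type} [AddCommGroup T] [Module ℂ T] {per : H →+ T} {Γ : Type} [Group Γ]
  {κ : Type}

/-- Tate tensors over the ground field: the multilinear forms in `2 n` variables on which the whole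
group acts through the `n`-th power of the character `χ`. -/
def IsRationalTate (ρ : Representation K Γ (K ⊗[ℚ] H)) (χ : Γ →* K) (n : ℕ)
    (φ : MultilinearMap K (fun _ : Fin (2 * n) => K ⊗[ℚ] H) K) : Prop :=
  ∀ (g : Γ) (v : Fin (2 * n) → K ⊗[ℚ] H), φ (fun k => ρ g (v k)) = χ g ^ n * φ v

/-- A combination with coefficients in `K` of Hodge tensors is a combination with coefficients which
are linearly independent over `ℚ`. -/
theorem indep_coeff {N : ℕ} (c : Fin N → K) (f : Fin N → MultilinearMap ℚ (fun _ : κ => H) ℚ)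
    (hf : ∀ j, HodgeMul per (f j)) :
    ∃ (M : ℕ) (d : Fin M → K) (f' : Fin M → MultilinearMap ℚ (fun _ : κ => H) ℚ),
      LinearIndependent ℚ d ∧ (∀ i, HodgeMul per (f' i)) ∧
        ∀ v, ∑ j, c j * ((f j v : ℚ) : K) = ∑ i, d i * ((f' i v : ℚ) : K) := by
  classical
  let C : Submodule ℚ K := Submodule.span ℚ (Set.range c)
  have : FiniteDimensional ℚ C := FiniteDimensional.span_of_finite ℚ (Set.finite_range c)
  let b := Module.finBasis ℚ C
  let c' : Fin N → C := fun j => ⟨c j, Submodule.subset_span ⟨j, rfl⟩⟩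
  refine ⟨_, fun i => (b i : K), fun i => ∑ j, b.repr (c' j) i • f j, ?_, fun i => ?_,
    fun v => ?_⟩
  · exact b.linearIndependent.map' C.subtype (Submodule.ker_subtype C)
  · -- Hodge tensors are a space
    choose ψ h1 h2 using hf
    refine ⟨∑ j, ((b.repr (c' j) i : ℚ) : ℝ) • ψ j, fun v => ?_, fun z hz u => ?_⟩
    · rw [_root_.sum_apply, _root_.sum_apply, Rat.cast_sum]
      refine Finset.sum_congr rfl fun j _ => ?_
      rw [_root_.smul_apply, _root_.smul_apply, h1, smul_eq_mul, smul_eq_mul, Rat.cast_mul]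
    · rw [_root_.sum_apply, _root_.sum_apply]
      refine Finset.sum_congr rfl fun j _ => ?_
      rw [_root_.smul_apply, _root_.smul_apply, h2 j z hz]
  · have h1 : ∀ j, c j = ∑ i, ((b.repr (c' j) i : ℚ) : K) * (b i : K) := by
      intro j
      have h2 := congrArg (Subtype.val : C → K) (b.sum_repr (c' j))
      rw [Submodule.coe_sum] at h2
      change _ = c j at h2
      rw [← h2]
      refine Finset.sum_congr rfl fun i _ => ?_
      rw [Submodule.coe_smul, Algebra.smul_def, eq_ratCast]
    have h3 : ∀ j, c j * ((f j v : ℚ) : K) =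
        ∑ i, (b i : K) * (((b.repr (c' j) i * f j v : ℚ)) : K) := by
      intro j
      conv_lhs => rw [h1 j]
      rw [Finset.sum_mul]
      refine Finset.sum_congr rfl fun i _ => ?_
      rw [Rat.cast_mul]
      ring
    rw [Finset.sum_congr rfl fun j _ => h3 j, Finset.sum_comm]
    refine Finset.sum_congr rfl fun i _ => ?_
    rw [_root_.sum_apply, Rat.cast_sum, Finset.mul_sum]
    refine Finset.sum_congr rfl fun j _ => ?_
    rw [_root_.smul_apply, smul_eq_mul]

/-- **Tate tensors over the ground field.** -/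
theorem rational_tate_span [Algebra K ℂ] [Algebra.IsAlgebraic K ℂ]
    (hX : Pool.Agent.Y90.St.IsAV per) (hs : GoodType per)
    (ht : Pool.Agent.Y4.Q.IsSeparated per) {E : H → H → ℚ}
    {ρ : Representation K Γ (K ⊗[ℚ] H)} {χ : Γ →* K}
    (hE : Pool.Agent.Y90.St.IsPolarization per E)
    (hρ : Pool.Agent.Y224.TS.St.IsTateModule per E ρ χ)
    (A : ∀ n, Γ → MultilinearMap ℚ (fun _ : Fin (2 * n) => H) ℚ →
      MultilinearMap ℚ (fun _ : Fin (2 * n) => H) ℚ)
    (hA : ∀ n g f, HodgeMul per f → ∀ φ φ', Extends K f φ → Extends K (A n g f) φ' →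
      ∀ v : Fin (2 * n) → K ⊗[ℚ] H, φ (fun k => ρ g (v k)) = χ g ^ n * φ' v) (n : ℕ)
    (φ : MultilinearMap K (fun _ : Fin (2 * n) => K ⊗[ℚ] H) K) :
    IsRationalTate ρ χ n φ ↔ φ ∈ Submodule.span K
      {ψ | ∃ f : MultilinearMap ℚ (fun _ : Fin (2 * n) => H) ℚ, HodgeMul per f ∧
        (∀ g, A n g f = f) ∧ Extends K f ψ} := by
  have : FiniteDimensional ℚ H := hX.1
  have hχ : ∀ g, χ g ≠ 0 := by
    intro g h0
    have h1 : χ g * χ g⁻¹ = 1 := by rw [← map_mul, mul_inv_cancel, map_one]
    rw [h0, zero_mul] at h1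
    exact zero_ne_one h1
  refine ⟨fun hφ => ?_, fun hφ => ?_⟩
  · obtain ⟨N, c, f, hf, hφf⟩ := tate_hodge Pool.Agent.Y71.OD2.duo hX hs ht hE hρ
      (κ := Fin (2 * n)) (n := n) (Nat.card_fin _) φ ⟨⊤, inferInstance, fun g _ v => hφ g v⟩
    obtain ⟨M, d, f', hd, hf', hsum⟩ := indep_coeff c f hf
    choose ψ hψ using fun i => exists_extends (K := K) (f' i)
    have h1 : φ = ∑ i, d i • ψ i := by
      refine ext_of_extends fun v => ?_
      rw [hφf, hsum, _root_.sum_apply]
      refine Finset.sum_congr rfl fun i _ => ?_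
      rw [_root_.smul_apply, hψ i, smul_eq_mul]
    have hfix : ∀ g i, A n g (f' i) = f' i := by
      intro g
      choose ψ' hψ' using fun i => exists_extends (K := K) (A n g (f' i))
      have h2 : ∀ v : Fin (2 * n) → H, ∑ i, ((A n g (f' i) v - f' i v : ℚ)) • d i = 0 := by
        intro v
        have h3 := hφ g fun k => (1 : K) ⊗ₜ[ℚ] v k
        rw [h1, _root_.sum_apply, _root_.sum_apply, Finset.mul_sum] at h3
        have h4 : ∑ i, χ g ^ n * (d i * ((A n g (f' i) v : ℚ) : K)) =
            ∑ i, χ g ^ n * (d i * ((f' i v : ℚ) : K)) := by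
          refine Eq.trans ?_ (h3.trans ?_)
          · refine Finset.sum_congr rfl fun i _ => ?_
            rw [_root_.smul_apply, hA n g (f' i) (hf' i) (ψ i) (ψ' i) (hψ i) (hψ' i), hψ' i,
              smul_eq_mul]
            ring
          · refine Finset.sum_congr rfl fun i _ => ?_
            rw [_root_.smul_apply, hψ i, smul_eq_mul]
        rw [← Finset.mul_sum, ← Finset.mul_sum] at h4
        have h5 := mul_left_cancel₀ (pow_ne_zero n (hχ g)) h4
        rw [← sub_eq_zero, ← Finset.sum_sub_distrib] at h5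
        rw [← h5]
        refine Finset.sum_congr rfl fun i _ => ?_
        rw [Algebra.smul_def, eq_ratCast, Rat.cast_sub]
        ring
      intro i
      ext v
      have h6 := Fintype.linearIndependent_iff.1 hd _ (h2 v) i
      exact sub_eq_zero.1 h6
    rw [h1]
    exact Submodule.sum_mem _ fun i _ => Submodule.smul_mem _ _
      (Submodule.subset_span ⟨f' i, hf' i, fun g => hfix g i, hψ i⟩)
  · refine Submodule.span_induction (p := fun ψ _ => IsRationalTate ρ χ n ψ) ?_ ?_ ?_ ?_ hφ
    · rintro ψ ⟨f, hf, hfix, h1⟩ g v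
      exact hA n g f hf ψ ψ h1 (by rw [hfix]; exact h1) v
    · intro g v
      rw [_root_.zero_apply, _root_.zero_apply, mul_zero]
    · intro a b _ _ ha hb g v
      rw [_root_.add_apply, _root_.add_apply, ha g v, hb g v, mul_add]
    · intro c a _ ha g v
      rw [_root_.smul_apply, _root_.smul_apply, ha g v, smul_eq_mul, smul_eq_mul]
      ring

end

end Pool.Agent.Y91.L
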